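import Pool.Agent.H94.CB.M11
import Pool.Agent.H94.CB.M156
import Pool.Agent.H94.CB.M17

/-!
# EL Defs: surfaces over an elliptic curve with a holomorphic `2`-form, normal crossing bad fibres

`X` is the cone (without `0`) over a smooth projective surface, `u` a holomorphic map to `ℂ / Λ` (see EF Defs).  `TForm X Λ u` are the
holomorphic `2`-forms on the surface `{(x, z) : u x = z mod Λ}` (a covering of `X` with group `Λ`).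
-/

set_option autoImplicit false

open Topology Filter Metric

namespace Pool.Agent.H62.EL

attribute [-instance] ProperSMul.toContinuousSMul

open Pool.Agent.H36.BP (EN fs wd IsGermChart)
open Pool.Agent.H14.PP (IsCone Chart Tan CurveAt)
open Pool.Agent.H62.EF (Lat MN pr TorusMap Sec Charts DU)

variable {N : ℕ}

/-- in suitable local coordinates at `x` the map `u` is `b + s ^ i * t ^ j` -/
def IsNC (X : Set (EN N)) (Λ : AddSubgroup ℂ) (u : EN N → ℂ) (x : EN N) (b : ℂ) : Prop :=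
  ∃ (σ : ℂ × ℂ → EN N) (τ : EN N → ℂ × ℂ) (i j : ℕ), IsGermChart X σ τ ∧ σ 0 = x ∧ 0 < i + j ∧
    ∀ᶠ p in 𝓝 (0 : ℂ × ℂ), u (σ p) - (b + p.1 ^ i * p.2 ^ j) ∈ Λ

/-- the geometric data; `B` is the set of the bad values -/
structure EData (X : Set (EN N)) (Λ : AddSubgroup ℂ) (u : EN N → ℂ) (Γ : AddSubgroup ℂ) (B : Set ℂ) (δ : ℝ) : Prop where
  cone : IsCone X
  charts : Charts X
  tor : TorusMap X Λ u
  lat : Lat Λ
  latΓ : Lat Γ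
  le : Γ ≤ Λ
  bad : BadSet B Λ δ
  zero : ∀ b ∈ B, 4 * δ ≤ ‖b‖
  fib : ∀ F : ℂ → EN N, Differentiable ℂ F → (∀ z, F z ∈ X) → (∀ z w, u (F z) - u (F w) ∈ Λ) →
    (∃ z w, ∀ c : ℂ, F z ≠ c • F w) → ∃ b ∈ B, u (F 0) - b ∈ Λ
  nc : ∀ b ∈ B, ∀ x ∈ X, u x - b ∈ Λ → IsNC X Λ u x b

/-- a holomorphic `2`-form on `{(x, z) : u x = z mod Λ}` -/
structure TForm (X : Set (EN N)) (Λ : AddSubgroup ℂ) (u : EN N → ℂ) where
  /-- the form: `toFun z x v w` for `u x = z mod Λ` and tangent vectors `v`, `w` at `x` -/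
  toFun : ℂ → EN N → EN N → EN N → ℂ
  add_smul : ∀ z, ∀ x ∈ X, u x - z ∈ Λ → ∀ v w, Tan X x v → Tan X x w → ∀ a b : ℂ,
    toFun z x (v + a • x) (w + b • x) = toFun z x v w
  det : ∀ z, ∀ x ∈ X, u x - z ∈ Λ → ∀ v w, Tan X x v → Tan X x w → ∀ a b c d : ℂ,
    toFun z x (a • v + b • w) (c • v + d • w) = (a * d - b * c) * toFun z x v w
  scale : ∀ z, ∀ x ∈ X, u x - z ∈ Λ → ∀ v w, Tan X x v → Tan X x w → ∀ c : ℂ, c ≠ 0 →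
    toFun z (c • x) (c • v) (c • w) = toFun z x v w
  analytic : ∀ (φ : ℂ × ℂ → EN N) (υ : ℂ × ℂ → ℂ) (p : ℂ × ℂ), AnalyticAt ℂ φ p → AnalyticAt ℂ υ p →
    (∀ᶠ y in 𝓝 p, φ y ∈ X ∧ u (φ y) - υ y ∈ Λ) →
    AnalyticAt ℂ (fun y => toFun (υ y) (φ y) (fderiv ℂ φ y (1, 0)) (fderiv ℂ φ y (0, 1))) p

variable {X : Set (EN N)} {Λ : AddSubgroup ℂ} {u : EN N → ℂ}

/-- the coefficient of the form in the chart `χ` with the lift `υ` of `u` -/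
noncomputable def tc (α : TForm X Λ u) (χ : Chart X) (υ : ℂ × ℂ → ℂ) (p : ℂ × ℂ) : ℂ :=
  α.toFun (υ p) (χ.σ p) (fderiv ℂ χ.σ p (1, 0)) (fderiv ℂ χ.σ p (0, 1))

/-- the form is `Γ`-periodic -/
def Per (α : TForm X Λ u) (Γ : AddSubgroup ℂ) : Prop :=
  ∀ z, ∀ l ∈ Γ, ∀ x ∈ X, u x - z ∈ Λ → ∀ v w, Tan X x v → Tan X x w → α.toFun (z + l) x v w = α.toFun z x v w

/-- the form vanishes on the fibre over `0` -/
def VanZero (α : TForm X Λ u) : Prop := ∀ x ∈ X, u x ∈ Λ → ∀ v w, Tan X x v → Tan X x w → α.toFun 0 x v w = 0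

/-- the form is nowhere locally `0` -/
def Thin (α : TForm X Λ u) : Prop :=
  ∀ (χ : Chart X) (υ : ℂ × ℂ → ℂ), ∀ p ∈ ball (0 : ℂ × ℂ) 2, AnalyticAt ℂ υ p → (∀ᶠ y in 𝓝 p, u (χ.σ y) - υ y ∈ Λ) →
    ¬ ∀ᶠ y in 𝓝 p, tc α χ υ y = 0

/-- the zeros of the form -/
def Zr (α : TForm X Λ u) (z : ℂ) (y : MN N) : Prop :=
  ∃ x ∈ X, pr x = y ∧ u x - z ∈ Λ ∧ ∀ v w, Tan X x v → Tan X x w → α.toFun z x v w = 0

/-- the function `b + ρ s^i t^j` -/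
noncomputable def mo (b : ℂ) (ρ : ℝ) (i j : ℕ) (p : ℂ × ℂ) : ℂ := b + ρ * (p.1 ^ i * p.2 ^ j)

/-- in the chart `χ` the map `u` is `b + ρ s^i t^j` -/
structure Mon (Λ : AddSubgroup ℂ) (u : EN N → ℂ) (χ : Chart X) (b : ℂ) (ρ : ℝ) (i j : ℕ) : Prop where
  pos : 0 < ρ
  ij : 0 < i + j
  lift : ∀ p ∈ ball (0 : ℂ × ℂ) 2, u (χ.σ p) - mo b ρ i j p ∈ Λ

/-- `A` is the primitive of the coefficient of the form in the direction of the second variable -/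
structure IsPrim (α : TForm X Λ u) (χ : Chart X) (υ A : ℂ × ℂ → ℂ) : Prop where
  an : ∀ p ∈ ball (0 : ℂ × ℂ) 2, AnalyticAt ℂ A p
  der : ∀ p ∈ ball (0 : ℂ × ℂ) 2, fderiv ℂ A p (0, 1) = tc α χ υ p
  zero : ∀ s : ℂ, ‖s‖ < 2 → A (s, 0) = 0

/-- the form `- A ds` of the chart on the derivative of the curve `γ` at `ζ` -/
noncomputable def bt (χ : Chart X) (A : ℂ × ℂ → ℂ) (γ : ℂ → EN N) (ζ : ℂ) : ℂ :=
  -(A (χ.q (γ ζ)) * (deriv (fun ξ => χ.q (γ ξ)) ζ).1)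

/-- the chart (with `u = c + ρ s`) contains all points near `y₀` of the fibres near `z₀` -/
structure Cap (Λ : AddSubgroup ℂ) (u : EN N → ℂ) (χ : Chart X) (c : ℂ) (ρ : ℝ) (z₀ : ℂ) (y₀ : MN N) (r : ℝ) : Prop where
  mon : Mon Λ u χ c ρ 1 0
  cap : ∀ z ∈ closedBall z₀ r, ∀ x ∈ X, u x - z ∈ Λ → dist (pr x) y₀ ≤ r →
    x ∈ χ.U ∧ χ.q x ∈ closedBall (0 : ℂ × ℂ) 1 ∧ c + ρ * (χ.q x).1 = z

/-- `v` is the integral of `α / dz` from `y` to `y'` along a short path in the fibre over `z` -/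
def IRel (α : TForm X Λ u) (ε : ℝ) (z : ℂ) (y y' : MN N) (v : ℂ) : Prop :=
  ∃ (χ : Chart X) (c : ℂ) (ρ : ℝ) (A : ℂ × ℂ → ℂ) (p p' : ℂ × ℂ), Mon Λ u χ c ρ 1 0 ∧ IsPrim α χ (mo c ρ 1 0) A ∧
    p ∈ ball (0 : ℂ × ℂ) 2 ∧ p' ∈ ball (0 : ℂ × ℂ) 2 ∧ c + ρ * p.1 = z ∧ c + ρ * p'.1 = z ∧ pr (χ.σ p) = y ∧ pr (χ.σ p') = y' ∧
    (∀ θ ∈ Set.Icc (0 : ℝ) 1, dist (pr (χ.σ (p + (θ : ℂ) • (p' - p)))) y ≤ ε) ∧ v = (A p' - A p) / ρ

open Classical in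
/-- the integral of `α / dz` from `y` to `y'` along a short path in the fibre over `z` -/
noncomputable def II (α : TForm X Λ u) (ε : ℝ) (z : ℂ) (y y' : MN N) : ℂ :=
  if h : ∃ v, IRel α ε z y y' v then h.choose else 0

/-- the limits of the sections, locally uniformly outside `B` -/
def Sb (X : Set (EN N)) (Λ : AddSubgroup ℂ) (u : EN N → ℂ) (B : Set ℂ) : Set (ℂ → MN N) :=
  {f | ∀ δ' : ℝ, 0 < δ' → ∀ R ε : ℝ, 0 < ε → ∃ F ∈ Sec X Λ u, ∀ z ∈ Gd B δ', ‖z‖ ≤ R → dist (pr (F z)) (f z) < ε}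

/-- the form multiplied by `(z - b)^n` -/
noncomputable def TForm.mulPow (α : TForm X Λ u) (b : ℂ) (n : ℕ) : TForm X Λ u where
  toFun := fun z x v w => (z - b) ^ n * α.toFun z x v w
  add_smul := fun z x hx hz v w hv hw a b' => by rw [α.add_smul z x hx hz v w hv hw a b']
  det := fun z x hx hz v w hv hw a b' c d => by rw [α.det z x hx hz v w hv hw a b' c d]; ring
  scale := fun z x hx hz v w hv hw c hc => by rw [α.scale z x hx hz v w hv hw c hc]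
  analytic := fun φ υ p hφ hυ h => ((hυ.sub analyticAt_const).pow n).mul (α.analytic φ υ p hφ hυ h)

/-- finitely many charts and open cones -/
structure TubeData (X : Set (EN N)) where
  /-- the number of charts -/
  m : ℕ
  /-- the charts -/
  χ : Fin m → Chart X
  /-- in the chart `χ k` the map `u` is `b + ρ k * s ^ i k * t ^ j k` -/
  ρ : Fin m → ℝ
  /-- exponents -/
  i : Fin m → ℕ
  /-- exponents -/
  j : Fin m → ℕ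
  /-- the open cones -/
  W : Fin m → Set (EN N)

/-- charts covering the fibre over `b`, and open cones `W k` covering the part of `X` over `ball b s` -/
structure TubeG (Λ : AddSubgroup ℂ) (u : EN N → ℂ) (b : ℂ) (s η : ℝ) (T : TubeData X) : Prop where
  pos : 0 < s
  le : s ≤ η
  inj : ∀ l ∈ Λ, ‖l‖ < 2 * η → l = 0
  mon : ∀ k, Mon Λ u (T.χ k) b (T.ρ k) (T.i k) (T.j k)
  range : ∀ k, ∀ p ∈ ball (0 : ℂ × ℂ) 2, ‖mo b (T.ρ k) (T.i k) (T.j k) p - b‖ < η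
  W_open : ∀ k, IsOpen (T.W k)
  W_sub : ∀ k, T.W k ⊆ (T.χ k).U
  W_smul : ∀ k, ∀ x ∈ T.W k, ∀ c : ℂ, c ≠ 0 → c • x ∈ T.W k
  cover : ∀ z ∈ ball b s, ∀ x ∈ X, u x - z ∈ Λ → ∃ k, x ∈ T.W k

/-- the functions `lam k` split the primitives of the closed forms `β_k - β_l` -/
def Split (Λ : AddSubgroup ℂ) (u : EN N → ℂ) (b : ℂ) (s : ℝ) (T : TubeData X) (A : Fin T.m → ℂ × ℂ → ℂ)
    (lam : Fin T.m → EN N → ℂ) : Prop :=
  (∀ k, ∀ x ∈ X, ∀ c : ℂ, c ≠ 0 → lam k (c • x) = lam k x) ∧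
    ∀ (k l : Fin T.m) (γ : ℂ → EN N) (ζ : ℂ), CurveAt X γ ζ → (∃ z ∈ ball b s, u (γ ζ) - z ∈ Λ) → γ ζ ∈ T.W k → γ ζ ∈ T.W l →
      HasDerivAt (fun ξ => lam k (γ ξ) - lam l (γ ξ)) (bt (T.χ k) (A k) γ ζ - bt (T.χ l) (A l) γ ζ) ζ

/-- a tube: for all forms and primitives there are splittings -/
structure Tube (Λ : AddSubgroup ℂ) (u : EN N → ℂ) (b : ℂ) (s η : ℝ) (T : TubeData X) : Prop where
  geo : TubeG Λ u b s η T
  split : ∀ (α : TForm X Λ u) (A : Fin T.m → ℂ × ℂ → ℂ), (∀ k, IsPrim α (T.χ k) (mo b (T.ρ k) (T.i k) (T.j k)) (A k)) →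
    ∃ lam : Fin T.m → EN N → ℂ, Split Λ u b s T A lam

/-- a witness chart, with a radius -/
structure Wit (X : Set (EN N)) where
  /-- the chart -/
  χ : Chart X
  /-- constant -/
  ρ : ℝ
  /-- exponents -/
  i : ℕ
  /-- exponents -/
  j : ℕ
  /-- radius of the part which is used -/
  r : ℝ

/-- the witness charts for a tube -/
structure WitG (Λ : AddSubgroup ℂ) (u : EN N → ℂ) (b : ℂ) (s η : ℝ) (T : TubeData X) (𝒲 : Set (Wit X)) : Prop where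
  pos : ∀ w ∈ 𝒲, 0 < w.r ∧ w.r ≤ 2
  mon : ∀ w ∈ 𝒲, Mon Λ u w.χ b w.ρ w.i w.j
  range : ∀ w ∈ 𝒲, ∀ p ∈ ball (0 : ℂ × ℂ) 2, ‖mo b w.ρ w.i w.j p - b‖ < η
  sub : ∀ w ∈ 𝒲, ∀ k, (∃ p ∈ ball (0 : ℂ × ℂ) w.r, w.χ.σ p ∈ T.W k) → ∀ p ∈ ball (0 : ℂ × ℂ) 2, w.χ.σ p ∈ (T.χ k).U
  nest : ∀ w ∈ 𝒲, ∀ w' ∈ 𝒲, (∃ p ∈ ball (0 : ℂ × ℂ) w.r, ∃ p' ∈ ball (0 : ℂ × ℂ) w'.r, pr (w.χ.σ p) = pr (w'.χ.σ p')) →
    (∀ p ∈ ball (0 : ℂ × ℂ) w.r, w.χ.σ p ∈ w'.χ.U) ∨ (∀ p ∈ ball (0 : ℂ × ℂ) w'.r, w'.χ.σ p ∈ w.χ.U)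
  cover : ∀ z ∈ ball b s, ∀ x ∈ X, u x - z ∈ Λ → ∃ w ∈ 𝒲, x ∈ w.χ.U ∧ w.χ.q x ∈ ball (0 : ℂ × ℂ) w.r

/-- the coefficients of the form `- A ds` of the chart `χ` in the chart `χ'` -/
noncomputable def bc (χ : Chart X) (A : ℂ × ℂ → ℂ) (χ' : Chart X) (e : ℂ × ℂ) (p : ℂ × ℂ) : ℂ :=
  -(A (χ.q (χ'.σ p)) * (fderiv ℂ (fun y => χ.q (χ'.σ y)) p e).1)

/-- `ψ` is a primitive of `β - β'` in the chart `χ'` which vanishes on the fibre over `b` -/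
structure PsiP (χ : Chart X) (A : ℂ × ℂ → ℂ) (χ' : Chart X) (A' : ℂ × ℂ → ℂ) (i' j' : ℕ) (ψ : ℂ × ℂ → ℂ) : Prop where
  zero : ∀ p ∈ ball (0 : ℂ × ℂ) 2, p.1 ^ i' * p.2 ^ j' = 0 → ψ p = 0
  der : ∀ (γ : ℂ → EN N) (ζ : ℂ), CurveAt X γ ζ → γ ζ ∈ χ'.U →
    HasDerivAt (fun ξ => ψ (χ'.q (γ ξ))) (bt χ A γ ζ - bt χ' A' γ ζ) ζ

end Pool.Agent.H62.EL
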